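import Pool.Agent.H25.CFL.Targets

/-!
# U1: the least bound, first part (MP_e37c09_lc)
-/

open Ordinal Cardinal Order Set
open scoped ZFSet

universe u

namespace Pool.Agent.H60.HCL

open _root_.HD Pool.Agent.H25.CFL

/-- a cofinal function -/
theorem cofinal_fun {α : Ordinal.{u}} (hα : 0 < α) : ∃ G : Ordinal.{u} → Ordinal.{u},
    (∀ a < α.cof.ord, G a < α) ∧ ∀ b < α, ∃ a < α.cof.ord, b ≤ G a := by
  obtain ⟨ι, f, hf, hι⟩ := exists_lsub_cof α
  have h1 : #(range f) ≤ Cardinal.lift.{u + 1} α.cof.ord.card := by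
    rw [Cardinal.card_ord, ← hι]
    have := Cardinal.mk_range_le_lift (f := f)
    rwa [Cardinal.lift_id'.{u, u + 1}] at this
  obtain ⟨e, he⟩ := cov_iff.2 h1
  classical
  refine ⟨fun a => if e a < α then e a else 0, fun a _ => ?_, fun b hb => ?_⟩
  · dsimp only
    split_ifs with h
    · exact h
    · exact hα
  · obtain ⟨i, hi⟩ : ∃ i, b ≤ f i := by
      by_contra hcon
      push Not at hcon
      have : lsub.{u, u} f ≤ b := lsub_le fun i => hcon i
      rw [hf] at this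
      exact absurd hb (not_lt.2 this)
    obtain ⟨a, ha, hae⟩ := he (f i) ⟨i, rfl⟩
    refine ⟨a, ha, ?_⟩
    have hlt : e a < α := by
      rw [hae, ← hf]
      exact lt_lsub f i
    dsimp only
    rw [if_pos hlt, hae]
    exact hi

theorem pf_U1 (hLZ : T_LZ.{u}) (hVA : T_VA.{u}) : T_U1.{u} := by
  intro M lam h c hSt v hv hlow hpos
  have hcof : ℵ₀ < lam.cof := lt_of_le_of_lt hSt.mreg.aleph0_le hSt.mlt
  have ha : Pos M.ord lam {x | IsSuccLimit x ∧ h x < v} := by
    by_contra hn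
    refine null_union hVA hcof hn (hLZ M lam h c hSt v hv) (hpos.mono fun b _ hb _ => ?_)
    rcases lt_or_eq_of_le hb.2 with h1 | h1
    · exact Or.inl ⟨hb.1, h1⟩
    · exact Or.inr ⟨hb.1, h1⟩
  refine ⟨ha, ?_⟩
  by_contra hlt
  have hlt' : v.cof < lam.cof := not_le.1 hlt
  have hv0 : 0 < v := by
    by_contra h0
    have h1 := hVA M.ord lam hcof 0 (by simpa using lt_trans Cardinal.aleph0_pos hcof)
      (fun _ => ∅) (fun i hi => absurd hi (not_lt.2 zero_le))
    refine h1 (ha.mono fun b _ hb _ => ?_)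
    exact absurd (lt_of_le_of_lt zero_le hb.2) h0
  obtain ⟨G, hG1, hG2⟩ := cofinal_fun hv0
  have h1 := hVA M.ord lam hcof v.cof.ord (by rwa [Cardinal.card_ord])
    (fun i => {x | IsSuccLimit x ∧ h x ≤ G i}) (fun i hi => hlow (G i) (hG1 i hi))
  refine h1 (ha.mono fun b _ hb _ => ?_)
  obtain ⟨i, hi, hbi⟩ := hG2 (h b) hb.2
  exact ⟨i, hi, hb.1, hbi⟩

end Pool.Agent.H60.HCL
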